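import Pool.Agent.NPG.StmtsD

/-!
# NPY, row EMB: the copy of `G` is closed in the convex set
-/

set_option autoImplicit false

open MeasureTheory Set Topology

namespace Pool.Agent.NPY.H49

open Pool.Agent.LSG Pool.Agent.NPY

theorem emb : EmbStmt := by
  intro G κ hκ hinj hn
  have hce : Topology.IsClosedEmbedding κ := hκ.isClosedEmbedding hinj
  let ι : G → ↥(Metric.ball (0 : EuclideanSpace ℝ (Fin 2)) 1 ∪ κ '' (G : Set K)) :=
    fun x => ⟨κ x, Or.inr ⟨x, x.2, rfl⟩⟩
  refine ⟨ι, ?_, fun x => rfl⟩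
  have hc : Continuous ι := (hκ.comp continuous_subtype_val).subtype_mk _
  have h1 : IsEmbedding (Subtype.val ∘ ι) := hce.isEmbedding.comp .subtypeVal
  have h2 : IsEmbedding ι := IsEmbedding.of_comp hc continuous_subtype_val h1
  refine ⟨h2, ?_⟩
  have h3 : range ι = {z | ‖z.1‖ = 1} := by
    apply Set.Subset.antisymm
    · rintro _ ⟨x, rfl⟩
      exact hn x
    · rintro ⟨z, hz⟩ hz1
      have hz2 : ‖z‖ = 1 := hz1
      rcases hz with hz | ⟨x, hx, hxz⟩
      · exfalso
        rw [mem_ball_zero_iff] at hz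
        linarith
      · exact ⟨⟨x, hx⟩, Subtype.ext hxz⟩
  rw [h3]
  exact isClosed_eq continuous_subtype_val.norm continuous_const

end Pool.Agent.NPY.H49
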